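import Pool.Agent.N656.MD.Stm

/-!
# Hall's inequality with the exponent `κ`
-/

set_option autoImplicit false

namespace Pool.Agent.N849.MD

open Filter MeasureTheory Set Topology
open Pool.Agent.N656.MD

theorem sq_rpow (x : ℕ) : (((x : ℝ) ^ (3 / 2 : ℝ)) ^ 2 : ℝ) = (x : ℝ) ^ 3 := by
  have hx : (0 : ℝ) ≤ x := Nat.cast_nonneg x
  rw [← Real.rpow_natCast ((x : ℝ) ^ (3 / 2 : ℝ)) 2, ← Real.rpow_mul hx]
  norm_num

theorem tend {s : ℝ} (hs : 0 < s) : Tendsto (fun x : ℕ => (x : ℝ) ^ s) atTop atTop :=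
  (tendsto_rpow_atTop hs).comp tendsto_natCast_atTop_atTop

theorem expo (τ : ℝ) : ((3 : ℕ) : ℝ) - ((3 : ℕ) : ℝ) / ((2 : ℕ) : ℝ) - τ = 3 / 2 - τ := by
  push_cast
  ring

theorem up_sub {κ a b τ : ℝ} (hκ : 3 ≤ κ) (ha : 0 < a) (hab : a < b)
    (hτ : τ < 3 / 2 - 3 / (2 * κ)) : H κ ∩ Icc a b ⊆ V 3 2 τ ∩ Icc a b := by
  rintro lam ⟨hH, hl⟩
  refine ⟨?_, hl⟩
  have hκ0 : (0 : ℝ) < κ := by linarith
  have hs : 0 < 3 / 2 - 3 / (2 * κ) - τ := by linarith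
  have hb : 0 < b := ha.trans hab
  have hlam : 0 < lam := lt_of_lt_of_le ha hl.1
  have hD : (0 : ℝ) < 1 + 2 * √b := by positivity
  have e1 := (tend hs).eventually_ge_atTop ((1 + 2 * √b) ^ κ⁻¹)
  have e2 := (tendsto_natCast_atTop_atTop (R := ℝ)).eventually_ge_atTop (1 / (4 * a))
  have e3 := eventually_ge_atTop (α := ℕ) 2
  refine ((hH 1).and_eventually (e1.and (e2.and e3))).mono ?_
  rintro x ⟨⟨y, -, hk⟩, h1, h2, h3⟩
  refine ⟨y, ?_⟩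
  rw [expo]
  rw [one_mul] at hk
  have hx2 : (2 : ℝ) ≤ x := by exact_mod_cast h3
  have hx0 : (0 : ℝ) < x := by linarith
  have hy0 : (0 : ℝ) ≤ y := Nat.cast_nonneg y
  have h4 : 1 ≤ 4 * a * x := by
    rw [div_le_iff₀ (by positivity)] at h2
    linarith
  have hcase : (y : ℝ) ^ 2 < 4 * lam * (x : ℝ) ^ 3 := by
    by_contra hc
    push Not at hc
    have h5 : 4 * a * (x : ℝ) ^ 3 ≤ 4 * lam * (x : ℝ) ^ 3 := by
      have := mul_le_mul_of_nonneg_right hl.1 (by positivity : (0 : ℝ) ≤ 4 * (x : ℝ) ^ 3)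
      linarith
    have h6 : (x : ℝ) ^ 2 ≤ 4 * a * (x : ℝ) ^ 3 := by
      have := mul_le_mul_of_nonneg_right h4 (by positivity : (0 : ℝ) ≤ (x : ℝ) ^ 2)
      calc (x : ℝ) ^ 2 = 1 * (x : ℝ) ^ 2 := by ring
        _ ≤ 4 * a * x * (x : ℝ) ^ 2 := this
        _ = 4 * a * (x : ℝ) ^ 3 := by ring
    have h7 : (x : ℝ) ≤ y := by
      have : (x : ℝ) ^ 2 ≤ (y : ℝ) ^ 2 := by linarith
      exact le_of_sq_le_sq this hy0
    rw [max_eq_right h7] at hk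
    have hy2 : (2 : ℝ) ≤ y := by linarith
    have h8 : 3 / 4 * (y : ℝ) ^ 2 ≤ |(y : ℝ) ^ 2 - lam * (x : ℝ) ^ 3| := by
      refine le_trans ?_ (le_abs_self _)
      linarith
    have h9 : (1 : ℝ) ≤ |(y : ℝ) ^ 2 - lam * (x : ℝ) ^ 3| := by nlinarith
    have h10 : |(y : ℝ) ^ 2 - lam * (x : ℝ) ^ 3| ≤ |(y : ℝ) ^ 2 - lam * (x : ℝ) ^ 3| ^ κ := by
      have := Real.rpow_le_rpow_of_exponent_le h9 (by linarith : (1 : ℝ) ≤ κ)
      rwa [Real.rpow_one] at this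
    nlinarith
  have hyb : (y : ℝ) ≤ 2 * √b * (x : ℝ) ^ (3 / 2 : ℝ) := by
    refine le_of_sq_le_sq ?_ (by positivity)
    rw [mul_pow, mul_pow, Real.sq_sqrt hb.le, sq_rpow]
    have : 4 * lam * (x : ℝ) ^ 3 ≤ 4 * b * (x : ℝ) ^ 3 := by
      have := mul_le_mul_of_nonneg_right hl.2 (by positivity : (0 : ℝ) ≤ 4 * (x : ℝ) ^ 3)
      linarith
    linarith
  have hxx : (x : ℝ) ≤ (x : ℝ) ^ (3 / 2 : ℝ) := by
    have := Real.rpow_le_rpow_of_exponent_le (by linarith : (1 : ℝ) ≤ x)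
      (by norm_num : (1 : ℝ) ≤ 3 / 2)
    rwa [Real.rpow_one] at this
  have hX0 : (0 : ℝ) < (x : ℝ) ^ (3 / 2 : ℝ) := Real.rpow_pos_of_pos hx0 _
  have hmax : max (x : ℝ) (y : ℝ) ≤ (1 + 2 * √b) * (x : ℝ) ^ (3 / 2 : ℝ) := by
    have hsb : 0 ≤ 2 * √b * (x : ℝ) ^ (3 / 2 : ℝ) := by positivity
    refine max_le ?_ ?_ <;> nlinarith
  have hlt : |(y : ℝ) ^ 2 - lam * (x : ℝ) ^ 3| ^ κ < (1 + 2 * √b) * (x : ℝ) ^ (3 / 2 : ℝ) :=
    lt_of_lt_of_le hk hmax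
  calc |(y : ℝ) ^ 2 - lam * (x : ℝ) ^ 3|
      = (|(y : ℝ) ^ 2 - lam * (x : ℝ) ^ 3| ^ κ) ^ κ⁻¹ := by
        rw [← Real.rpow_mul (abs_nonneg _), mul_inv_cancel₀ hκ0.ne', Real.rpow_one]
    _ < ((1 + 2 * √b) * (x : ℝ) ^ (3 / 2 : ℝ)) ^ κ⁻¹ :=
        Real.rpow_lt_rpow (by positivity) hlt (by positivity)
    _ = (1 + 2 * √b) ^ κ⁻¹ * (x : ℝ) ^ (3 / 2 * κ⁻¹) := by
        rw [Real.mul_rpow hD.le hX0.le, ← Real.rpow_mul hx0.le]
    _ ≤ (x : ℝ) ^ (3 / 2 - 3 / (2 * κ) - τ) * (x : ℝ) ^ (3 / 2 * κ⁻¹) :=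
        mul_le_mul_of_nonneg_right h1 (by positivity)
    _ = (x : ℝ) ^ (3 / 2 - τ) := by
        rw [← Real.rpow_add hx0]
        congr 1
        field_simp
        ring

theorem low_sub {κ a b τ : ℝ} (hκ : 3 ≤ κ) (ha : 0 < a)
    (hτ : 3 / 2 - 3 / (2 * κ) < τ) :
    V 3 2 τ ∩ Icc a b ⊆ (H κ ∩ Icc a b) ∪ range fun p : ℕ × ℕ => (p.1 : ℝ) ^ 2 / (p.2 : ℝ) ^ 3 := by
  rintro lam ⟨hV, hl⟩
  by_cases hr : lam ∈ range fun p : ℕ × ℕ => (p.1 : ℝ) ^ 2 / (p.2 : ℝ) ^ 3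
  · exact Or.inr hr
  refine Or.inl ⟨fun C => ?_, hl⟩
  have hκ0 : (0 : ℝ) < κ := by linarith
  have hlam : 0 < lam := lt_of_lt_of_le ha hl.1
  have hτ0 : 0 < τ := by
    have : 3 / (2 * κ) ≤ 1 / 2 := by
      rw [div_le_div_iff₀ (by positivity) (by norm_num)]
      linarith
    linarith
  have hs : 0 < 3 / 2 - (3 / 2 - τ) * κ := by
    have h1 : 3 / (2 * κ) * κ = 3 / 2 := by field_simp
    have h2 : (3 / 2 - τ) * κ < 3 / (2 * κ) * κ :=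
      mul_lt_mul_of_pos_right (by linarith) hκ0
    linarith
  have hsa : 0 < √a := Real.sqrt_pos.2 ha
  have e1 := (tend hs).eventually_gt_atTop (2 * |C| / √a)
  have e2 := (tend (by norm_num : (0 : ℝ) < 3 / 2)).eventually_ge_atTop (4 / (3 * a))
  have e3 := eventually_ge_atTop (α := ℕ) 1
  refine (hV.and_eventually (e1.and (e2.and e3))).mono ?_
  rintro x ⟨⟨y, hk⟩, h1, h2, h3⟩
  rw [expo] at hk
  have hx1 : (1 : ℝ) ≤ x := by exact_mod_cast h3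
  have hx0 : (0 : ℝ) < x := by linarith
  have hy0 : (0 : ℝ) ≤ y := Nat.cast_nonneg y
  refine ⟨y, ?_, ?_⟩
  · intro h0
    refine hr ⟨(y, x), ?_⟩
    show (y : ℝ) ^ 2 / (x : ℝ) ^ 3 = lam
    rw [div_eq_iff (by positivity)]
    linarith
  · have hX0 : (0 : ℝ) < (x : ℝ) ^ (3 / 2 : ℝ) := Real.rpow_pos_of_pos hx0 _
    have hX2 := sq_rpow x
    have h4 : (x : ℝ) ^ (3 / 2 - τ) ≤ (x : ℝ) ^ (3 / 2 : ℝ) :=
      Real.rpow_le_rpow_of_exponent_le hx1 (by linarith)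
    have h5 : a * (x : ℝ) ^ 3 - (x : ℝ) ^ (3 / 2 : ℝ) ≤ (y : ℝ) ^ 2 := by
      have h6 := (abs_lt.1 hk).1
      have h7 : a * (x : ℝ) ^ 3 ≤ lam * (x : ℝ) ^ 3 :=
        mul_le_mul_of_nonneg_right hl.1 (by positivity)
      linarith
    have h8 : 4 ≤ 3 * a * (x : ℝ) ^ (3 / 2 : ℝ) := by
      rw [div_le_iff₀ (by positivity)] at h2
      linarith
    have h9 : √a / 2 * (x : ℝ) ^ (3 / 2 : ℝ) ≤ y := by
      refine le_of_sq_le_sq ?_ hy0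
      rw [mul_pow, div_pow, Real.sq_sqrt ha.le]
      rw [← hX2] at h5
      nlinarith
    have h10 : C * |(y : ℝ) ^ 2 - lam * (x : ℝ) ^ 3| ^ κ ≤ |C| * (x : ℝ) ^ ((3 / 2 - τ) * κ) := by
      have h11 : |(y : ℝ) ^ 2 - lam * (x : ℝ) ^ 3| ^ κ ≤ ((x : ℝ) ^ (3 / 2 - τ)) ^ κ :=
        Real.rpow_le_rpow (abs_nonneg _) hk.le hκ0.le
      rw [← Real.rpow_mul hx0.le] at h11
      have h12 : (0 : ℝ) ≤ |(y : ℝ) ^ 2 - lam * (x : ℝ) ^ 3| ^ κ := by positivity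
      calc C * |(y : ℝ) ^ 2 - lam * (x : ℝ) ^ 3| ^ κ
          ≤ |C| * |(y : ℝ) ^ 2 - lam * (x : ℝ) ^ 3| ^ κ :=
            mul_le_mul_of_nonneg_right (le_abs_self C) h12
        _ ≤ _ := mul_le_mul_of_nonneg_left h11 (abs_nonneg C)
    have h13 : |C| * (x : ℝ) ^ ((3 / 2 - τ) * κ) < √a / 2 * (x : ℝ) ^ (3 / 2 : ℝ) := by
      have h14 : (x : ℝ) ^ (3 / 2 : ℝ) =
          (x : ℝ) ^ (3 / 2 - (3 / 2 - τ) * κ) * (x : ℝ) ^ ((3 / 2 - τ) * κ) := by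
        rw [← Real.rpow_add hx0]
        congr 1
        ring
      have h15 : (0 : ℝ) < (x : ℝ) ^ ((3 / 2 - τ) * κ) := Real.rpow_pos_of_pos hx0 _
      have h16 : |C| < √a / 2 * (x : ℝ) ^ (3 / 2 - (3 / 2 - τ) * κ) := by
        rw [div_lt_iff₀ hsa] at h1
        linarith
      rw [h14, ← mul_assoc]
      exact mul_lt_mul_of_pos_right h16 h15
    exact lt_of_le_of_lt h10 (lt_of_lt_of_le h13 (h9.trans (le_max_right _ _)))

theorem hal : S_HAL := by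
  intro hup hlow κ hκ a b ha hab
  have hκ0 : (0 : ℝ) < κ := by linarith
  have ht1 : 1 ≤ 3 / 2 - 3 / (2 * κ) := by
    have : 3 / (2 * κ) ≤ 1 / 2 := by
      rw [div_le_div_iff₀ (by positivity) (by norm_num)]
      linarith
    linarith
  have ht : 5 / (2 * (3 / 2 - 3 / (2 * κ)) + 3) = 5 * κ / (6 * κ - 3) := by
    have h1 : 2 * (3 / 2 - 3 / (2 * κ)) + 3 = (6 * κ - 3) / κ := by
      field_simp
      ring
    rw [h1, div_div_eq_mul_div]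
  have hcont : Tendsto (fun τ : ℝ => ENNReal.ofReal (5 / (2 * τ + 3)))
      (𝓝 (3 / 2 - 3 / (2 * κ))) (𝓝 (ENNReal.ofReal (5 * κ / (6 * κ - 3)))) := by
    rw [← ht]
    refine (ENNReal.continuous_ofReal.tendsto _).comp ?_
    have : ContinuousAt (fun τ : ℝ => 5 / (2 * τ + 3)) (3 / 2 - 3 / (2 * κ)) := by
      refine ContinuousAt.div continuousAt_const (by fun_prop) ?_
      linarith
    exact this
  refine le_antisymm ?_ ?_
  · have h1 : Tendsto (fun τ : ℝ => ENNReal.ofReal (5 / (2 * τ + 3)))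
        (𝓝[<] (3 / 2 - 3 / (2 * κ))) (𝓝 (ENNReal.ofReal (5 * κ / (6 * κ - 3)))) :=
      hcont.mono_left nhdsWithin_le_nhds
    refine ge_of_tendsto h1 ?_
    have h2 : ∀ᶠ τ : ℝ in 𝓝[<] (3 / 2 - 3 / (2 * κ)), 0 < τ :=
      nhdsWithin_le_nhds (lt_mem_nhds (by linarith))
    filter_upwards [h2, self_mem_nhdsWithin] with τ h3 h4
    exact (dimH_mono (up_sub hκ ha hab h4)).trans (hup τ h3 a b ha)
  · have h1 : Tendsto (fun τ : ℝ => ENNReal.ofReal (5 / (2 * τ + 3)))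
        (𝓝[>] (3 / 2 - 3 / (2 * κ))) (𝓝 (ENNReal.ofReal (5 * κ / (6 * κ - 3)))) :=
      hcont.mono_left nhdsWithin_le_nhds
    refine le_of_tendsto h1 ?_
    filter_upwards [self_mem_nhdsWithin] with τ h4
    have h4' : 3 / 2 - 3 / (2 * κ) < τ := h4
    refine (hlow τ (by linarith) a b ha hab).trans ((dimH_mono (low_sub hκ ha h4')).trans ?_)
    rw [dimH_union, (countable_range _).dimH_zero]
    exact max_le le_rfl zero_le

end Pool.Agent.N849.MD
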